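import Pool.Agent.Run7.h174.CmC

/-!
# Bloch's conjecture for correspondences on surfaces dominated by a product of two curves, one of CM
type

Let `C` be a curve whose Jacobian `J(C)` has complex multiplication (all simple factors are of CM
type) and `D` an arbitrary curve, and let `X` be a smooth projective surface with a dominant rational
map `π : C × D ⇢ X`. Examples: the surfaces `z ^ p = x ^ q + g(y)` for all `p`, `q` and all polynomials
`g` (here `C` is the curve `v ^ p = u ^ q + 1`, a quotient of a Fermat curve), of arbitrary geometric
genus; elliptic surfaces with constant `j`-invariant a singular modulus (`C` is the fibre). `X` and `D`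
need not be connected, so correspondences between two such surfaces with the same `C` are included.

Let `L` be a field which contains the conjugates of the centre `Z` of `End(J(C)) ⊗ ℚ`, a product of CM
fields; for example `L = ℂ`. Let `m = [Z : ℚ]`, the sum of `2 dim A_j` over the isogeny classes of the
simple factors `A_j` of `J(C)`. A correspondence `Γ` of `X` is *null* if `[Γ]_*^{2,0} = 0`. The open
direction of the question says that null correspondences act as zero on `ker(alb_X)`.

`𝓜` is the category of Chow motives over `ℂ` with coefficients in `L`, `F` the functor `CH²(-) ⊗ L` and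
`G` the functor `H^{2,0}(-) ⊗ L`; `hC = h¹(C)`, `hD = h¹(D)` and `t = t₂(X)` is the transcendental part
of the motive of `X` (Kahn, Murre, Pedrini). One has `F t = ker(alb_X) ⊗ L`, the actions of
`CH²(X × X)` on `ker(alb_X)` and on `H^{2,0}(X)` factor through the surjection from `CH²(X × X) ⊗ L` to
`End t`, and `t` is a direct summand of `hC ⊗ hD`, by `π_*` and `(deg π)⁻¹ π^*` (`R : Retract t (hC ⊗ hD)`).

`E : CMData hC I`: by Kimura the motive `h¹(C)` is the direct sum of invertible objects (of dimension
one), because `J(C)` has complex multiplication; they are copies of `U i`, `i ∈ I`, for the `m`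
homomorphisms `i : Z → L`, and `E.e i` is the idempotent of `Z ⊗ L` for `i`.

**Theorem.** (1) The composition of any `m` null correspondences of `X` acts as zero on `ker(alb_X)`.
The number `m` does not depend on `D`. For example `m = 2` if `C` is an elliptic curve with complex
multiplication: on the elliptic surfaces above the composition of any two null correspondences acts
as zero.

(2) The answer to the question is positive for the correspondences which commute with the complex
multiplication: suppose that generators `z` of `Z` act on `X`, that is, there are correspondences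
`φ z` of `X` such that `φ z ∘ π_* = π_* ∘ (z × 1)` on the Albanese kernels. Let `Γ` be null and commute
with all `φ z` on `ker(alb_X)`. Then `Γ` acts as zero on `ker(alb_X)`. In the first example the group
of the `(x, z) ↦ (ζ x, η z)`, `ζ ^ q = η ^ p = 1`, acts, in the second the complex multiplication of
the fibres.

The other hypotheses are known facts: `End(J(C)) ⊗ End(J(D)) ⊗ L` is semisimple (`hss`; for curves
`End(h¹(C)) = End(J(C)) ⊗ L`), and null correspondences of `C × D` act nilpotently on the Albanese
kernel (`hK`; Kimura).

The proof: as `U i` is invertible, the endomorphisms of `U i ⊗ hD` are those of `hD`. So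
`(e i × 1) ∘ W ∘ (e i × 1)` is in `End(hC) ⊗ End(hD)` for all endomorphisms `W` of `hC ⊗ hD`. If `W` is
null then the left ideal which this element generates is generated by a null idempotent, and this
acts as zero on the Albanese kernel, as it is nilpotent. So null correspondences have no diagonal
part, and the composition of `m` of them is a sum over paths of length `m` in a set of `m` elements.
-/

set_option autoImplicit false

open CategoryTheory MonoidalCategory Run7.h174.Cm

namespace Pool.Agent.Results.MP_31564d_ag.FactorOfCMType

/-- Let `𝓜` be an `L`-linear tensor category, `F` and `G` functors to vector spaces over `L`, `F`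
linear, and `hC` and `hD` objects such that `hC` is a direct sum of copies of invertible objects `U i`,
`i ∈ I` (`E`), the algebra `End hC ⊗ End hD` is semisimple (`hss`), and `F (W ^ n) = 0` for some `n`
for all endomorphisms `W` of `hC ⊗ hD` with `G W = 0` (`hK`). Let `t` be a direct summand of `hC ⊗ hD`
(`R`).

(1) If `l` is a list of at least `|I|` endomorphisms `Γ` of `t` with `G Γ = 0` then its product
acts as zero on `F t`.

(2) Let `Z` be a set of endomorphisms of `hC` such that the projectors `E.e i` are in the algebra
generated by `Z`, and for `z ∈ Z` let `φ z` be an endomorphism of `t` such that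
`R.r ∘ (z ⊗ 1)` and `φ z ∘ R.r` are equal on `F (hC ⊗ hD)`. If `Γ` is an endomorphism of `t` with `G Γ = 0`
which commutes with all `φ z` on `F t` then `Γ` acts as zero on `F t`. -/
theorem result {L : Type} [Field L] {𝓜 : Type} [Category.{0} 𝓜] [MonoidalCategory 𝓜]
    [Preadditive 𝓜] [Linear L 𝓜] [MonoidalPreadditive 𝓜] [MonoidalLinear L 𝓜]
    (F G : 𝓜 ⥤ ModuleCat.{0} L) [F.Additive] [F.Linear L] {hC hD : 𝓜} {I : Type} [Fintype I]
    (E : CMData hC I) (hss : IsSemisimpleRing (TensorProduct L (End hC) (End hD)))
    (hK : ∀ W : End (hC ⊗ hD), IsNull G W → ∃ n : ℕ, ActsAsZero F (W ^ n)) {t : 𝓜}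
    (R : Retract t (hC ⊗ hD)) :
    (∀ l : List (End t), (∀ Γ ∈ l, IsNull G Γ) → Fintype.card I ≤ l.length →
      ActsAsZero F l.prod) ∧
    ∀ (Z : Set (End hC)) (φ : End hC → End t), (∀ i, E.e i ∈ Algebra.adjoin L Z) →
      (∀ z ∈ Z, F.map (R.r ≫ φ z) = F.map ((z ▷ hD : hC ⊗ hD ⟶ hC ⊗ hD) ≫ R.r)) →
      ∀ Γ : End t, IsNull G Γ → (∀ z ∈ Z, F.map (φ z ≫ Γ) = F.map (Γ ≫ φ z)) →
        ActsAsZero F Γ :=
  ⟨fun l hl hlen => products E hss hK R l hl hlen,
    fun Z φ hZ hφ Γ hΓ hc => commuting E hss hK R Z hZ φ hφ Γ hΓ hc⟩

end Pool.Agent.Results.MP_31564d_ag.FactorOfCMType
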