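import Pool.Agent.Run7.h541.Pf.RatB
import Pool.Agent.Run7.h541.Pf.Crit
import Pool.Agent.Run7.h541.Pf.Span
import Pool.Agent.Run7.h541.Pf.Img
import Pool.Agent.TH466.QG.Low

/-!
# Bloch's conjecture for correspondences on surfaces: few fibres on a covering

Let `X` be a surface with the function field `F`, or more generally a variety of dimension `n ≥ 1`,
and let `Ω` be an algebraic closure of the function field of a surface `S`, for instance `S = X`. A
correspondence `Γ` from `S` to `X` whose components dominate both factors is the same as a finite
integral combination `c = ∑ c(ρ) ρ` of embeddings `ρ : F → Ω` over `ℂ` which is invariant under the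
Galois group of `Ω` over `ℂ(S)`: it is the restriction of `Γ` to the geometric generic fibre. The
theorem is about all `c`; no invariance is needed. `[Γ]^{2,0} = 0` means that `∑ c(ρ) ρ^* ω = 0` for
all regular canonical forms `ω` of `X` (`NullTrace`, `Pool/Agent/N162/BC/Defs.lean`). Components which
do not dominate both factors have no effect on `H^{2,0}`, and act by zero on the Albanese kernel. If
`c` or a multiple of `c` is in `Rat F Ω` (same file: rational equivalence of zero-cycles, modulo the
cycles on `D_Ω` for proper closed subsets `D` of `X`), then `[Γ]_* = 0` on the Albanese kernel (Bloch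
and Srinivas; this is standard and not formalised here).

Let `T` be a variety with the function field `K` which dominates `X`, of degree `r = [K : F]`, and
let `x = (x_1, …, x_n)` be a generically finite dominant map from `T` to the affine space, for
instance a general projection of a smooth surface of degree `d ≥ 4` in `ℙ^3` (with the monodromy group
`S_d`, and `k = d - 4`) or a double plane with a branch curve of degree `2m` (`k = m - 3`):

  `X ⇠ T ⇢ ℙ^n`.

Suppose that the canonical forms of `T` which are divisible by `k` times the pullback of a hyperplane
have no integral linear relation on the conjugates over `ℂ(ℙ^n)` except the trace (`OnlyTrace`), or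
that their coefficients generate the functions of trace zero (`SpansTraceZero`), or that there is
such a form `≠ 0` and `T ⇢ ℙ^n` has prime degree or doubly transitive monodromy
(`Pool/Agent/Run7/h541/Pf/Defs.lean`).

**Theorem.** Let `c` have null trace, and let `c'` be its pullback to `T`: `c'(σ) = c(σ|_F)`. Suppose
that the points of `c'` are in at most `k + 1` fibres of `T ⇢ ℙ^n`, or that they are mapped to points
of `ℙ^n` which impose independent conditions on the hypersurfaces of degree `k`. (If `c` consists of
`m` points then `c'` has `r m` points, so `r m ≤ k + 1` is sufficient.) Then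
1. `c'` is constant on the fibres of `T ⇢ ℙ^n`, and `r c ∈ Rat F Ω`;
2. if `Ω` has the transcendence degree `n` over `ℂ` then `c` is zero, or it is the pullback of a
   family of zero-cycles on a variety `Z` of dimension `n` which is dominated by `X` and by `ℙ^n`: the
   function field of `Z` is the intersection of `F` and `ℂ(ℙ^n)` in `K`, over which `K` is then
   algebraic. For `n = 2` the surface `Z` is rational by the theorem of Castelnuovo.

For `X` with `p_g = 0` all `c` have null trace, and the theorem says for the identity (`m = 1`,
`r ≤ k + 1`) that `F ⊆ ℂ(ℙ^n)`, that is `T ⇢ X` factors over `ℙ^n`.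

The case `F = K` of part 1 is `FewFibresOverPlane` of MP_762f97_ag (same author); the step to the
images, the two-sided use of the invariance and part 2 are new. The pullback of the null trace to a
covering is by helper902 (`Pool/Agent/Run7/h902/SImage.lean`), the pushforward of `Rat` is from the
library (`Pool/Agent/N162/BC/Pull.lean`).

Proof of part 2 (`Pool/Agent/Run7/h541/Pf/Meet.lean`): the function `c'` on the embeddings `K → Ω` is
unchanged under every change of the embedding which does not change its restriction to `F`, and
under every change which does not change its restriction to `ℂ(x)`. The class `S` of an embedding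
`σ₀` with `c'(σ₀) ≠ 0` under these moves is finite, and all automorphisms of `Ω` over `σ₀(F)`, and
all those over `σ₀(ℂ(x))`, permute `S`. So for every `a ∈ K` the coefficients of the polynomial with
the roots `σ(a)`, `σ ∈ S`, are in `σ₀(F) ∩ σ₀(ℂ(x)) = σ₀(F ∩ ℂ(x))`; for a generator `a` of `K` over
`F ∩ ℂ(x)` this shows that `S` is the set of all `σ` which agree with `σ₀` on `F ∩ ℂ(x)`.
-/

set_option autoImplicit false

open Pool.Agent.N162.BC

namespace Pool.Agent.Results.MP_31564d_ag.FewFibresOfImages

open Pool.Agent.Run7.h541.Pf

/-- **Bloch's conjecture for correspondences which meet few fibres on a covering.** Let `F ⊆ K` be the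
function fields of varieties `X` and `T` of dimension `n ≥ 1`, let `x_1, …, x_n` be algebraically
independent elements of `K`, and let `Ω` be an algebraically closed field over `ℂ`. Let the forms
`f dx_1 ∧ ⋯ ∧ dx_n` which remain global canonical forms of `T` after multiplication with all
polynomials of degree at most `k` in the coordinates have no integral linear relations on the
conjugates of `f` over `ℂ(x_1, …, x_n)` but the multiples of the trace; or let these `f` generate the
elements of trace zero; or let there be such an `f ≠ 0`, where the degree of `K` over
`ℂ(x_1, …, x_n)` is prime or the Galois group is doubly transitive. Let `c` be an integral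
combination of embeddings `F → Ω` over `ℂ` with null trace. The function `c' σ = c (σ|_F)` on the
embeddings `K → Ω` has finite support. If the points of `c'` are mapped to at most `k + 1` points of
the affine space, or to points which impose independent conditions on the polynomials of degree at
most `k`, then `c'` is constant on the fibres of `x`, and `[K : F] c ∈ Rat F Ω`; and if `Ω` has the
transcendence degree `n` over `ℂ` then `c ρ` depends only on the restriction of `ρ` to
`F ∩ ℂ(x_1, …, x_n)`, and `c = 0` unless `K` is algebraic over `F ∩ ℂ(x_1, …, x_n)`. -/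
theorem result {F K Ω : Type} [Field F] [Algebra ℂ F] [Field K] [Algebra ℂ K]
    [Algebra.EssFiniteType ℂ K] [Algebra F K] [IsScalarTower ℂ F K] [FiniteDimensional F K]
    [Field Ω] [Algebra ℂ Ω] [IsAlgClosed Ω] {n : ℕ} (hn : 1 ≤ n) (hK : Algebra.trdeg ℂ K = n)
    {x : Fin n → K} (hx : AlgebraicIndependent ℂ x) {k : ℕ}
    (h : OnlyTrace x k ∨ SpansTraceZero x k ∨
      ((∃ f : K, f ≠ 0 ∧ Coeff x k f) ∧
        ((Module.finrank (base x) K).Prime ∨ DoublyTransitive x)))
    {c : (F →ₐ[ℂ] Ω) →₀ ℤ} (hc : NullTrace n c) :
    ∃ c' : (K →ₐ[ℂ] Ω) →₀ ℤ, (∀ σ, c' σ = c (σ.comp (IsScalarTower.toAlgHom ℂ F K))) ∧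
      (numPoints x c' ≤ k + 1 ∨ Independent x k c' →
        (∀ σ τ : K →ₐ[ℂ] Ω, (∀ i, σ (x i) = τ (x i)) → c' σ = c' τ) ∧
        Module.finrank F K • c ∈ Rat F Ω ∧
        (Algebra.trdeg ℂ Ω = n →
          (∀ ρ ρ' : F →ₐ[ℂ] Ω, (∀ a : F, algebraMap F K a ∈ base x → ρ a = ρ' a) →
            c ρ = c ρ') ∧
          (c ≠ 0 → ∀ a : K, IsAlgebraic
            ((IsScalarTower.toAlgHom ℂ F K).fieldRange ⊓ base x : IntermediateField ℂ K) a))) := by
  have hb : IsTranscendenceBasis ℂ x := by
    refine hx.isTranscendenceBasis_of_lift_trdeg_le_of_finite ?_
    rw [hK]
    simp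
  have ho : OnlyTrace x k := by
    rcases h with h | h | ⟨⟨f, hf0, hf⟩, h⟩
    · exact h
    · exact only_of_span hb h
    · exact only_of hn hb hf0 hf h
  haveI : Algebra.EssFiniteType ℂ F := Pool.Agent.TH466.QG.ess_below (K := K)
  obtain ⟨c', hc', hnt, hpush⟩ := null_pull (K := K) (trdeg_below (K := K) hK) hc
  refine ⟨c', hc', fun hP => ?_⟩
  have hI : Independent x k c' := by
    rcases hP with h | h
    · exact independent_of_card h
    · exact h
  have hconst : ∀ σ τ : K →ₐ[ℂ] Ω, (∀ i, σ (x i) = τ (x i)) → c' σ = c' τ := fun σ τ h =>
    const_of_only hb hnt hI ho σ τ h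
  have hrat : c' ∈ Rat K Ω := by
    obtain ⟨m, rfl⟩ : ∃ m, n = m + 1 := ⟨n - 1, by omega⟩
    exact rat_of_fibres hK hx hconst
  refine ⟨hconst, ?_, fun hΩ => common hK hΩ hb hc' hconst⟩
  rw [← hpush]
  exact rat_push hrat

end Pool.Agent.Results.MP_31564d_ag.FewFibresOfImages
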