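import Pool.Agent.Run7.h848.XG.NullOne

/-!
# Bloch's conjecture for the correspondences of a surface: one inequality decides, or the null correspondences
are at least half of all

Let `S` be a smooth projective complex surface, `T(S)` its transcendental lattice (the smallest Hodge structure
in `H^2(S, ℚ)` whose complexification contains `H^{2,0}(S)`), `b ≥ 1` its rank, and `M = t_2(S)` the transcendental
motive: the summand of the Chow motive of `S` (degree-zero correspondences, rational coefficients) with realisation
`T(S)` and `CH_0(M) = ker(alb_S) ⊗ ℚ`. A correspondence `Γ ∈ CH^2(S × S)` acts on `M`, and this action `y` determines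
`Γ_*` on `ker(alb_S)` (which is torsion free by Roitman's theorem). The kernel of `Γ_*` on `T(S)` is a Hodge
structure; so `Γ_*^{2,0} = 0` if and only if `y` is a NULL endomorphism: its realisation is zero. So Q1 for `S`
follows if `M` has no null endomorphism except `0`. (By Bloch and Srinivas the two are equivalent. The conjectures of
Bloch, Beilinson and Murre predict that no power `M ^ n = M ^ (⊗ n)` has a null endomorphism except `0`.)

Let `j(n)`, maybe infinite, be the dimension of the space of the null endomorphisms of `M ^ n`, and `a(n) ≤ b ^ (2 n)` the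
rank of `End(M ^ n)` modulo numerical equivalence: null correspondences, and all correspondences, on `S ^ n`.

**Theorem.** (1) (law) `j(n) / a(n)` has a limit `N ∈ {0, 1, 2, …, ∞}`, and `N = 0` if and only if no power of `M` has a null
endomorphism except `0`. The composition of `N + 1` null endomorphisms of `M ^ n` is `0`, for all `n` (if `N` is finite): in
particular `Γ_1 ∘ ⋯ ∘ Γ_{N+1}` acts as zero on `ker(alb_S)` for all `Γ_i` with `Γ_{i *}^{2,0} = 0`.

(2) (gap) If `M ^ m` has a null endomorphism other than `0`, then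

  `j(2 n) ≥ a(2 n) / 2` and `j(2 n) ≥ b ^ (4 n) / (2 (n + 1) ^ (b ^ 4))` for all `n` with `2 n ≥ 128 (m + 1) ^ 2 b ^ (4 m + 12)`.

(3) (one inequality decides Q1) If `j(2 n) < a(2 n) / 2` for ONE `n ≥ 256 b ^ 16`, then all null endomorphisms of `M` are
`0`, and Q1 is true for `S`. In other words, if Q1 fails for one `Γ` on `S` then for all `n ≥ 256 b ^ 16` the null
correspondences (on `M ^ (2 n)`) are at least half as many as all correspondences modulo numerical equivalence.

(4) (nilpotence) If a null endomorphism of `M` is not nilpotent then, for ALL `n`,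

  `dim End(M ^ n) ≥ ∑ i ≤ n, (n choose i) a(n - i) ≥ (b ^ 2 + 1) ^ n / (n + 1) ^ (b ^ 2)`.

So if `dim End(M ^ n) ≤ b ^ (2 n)` for the ONE number `n = 4 b ^ 6`, then each `Γ` with `Γ_*^{2,0} = 0` is nilpotent on
`ker(alb_S)`.

Known: each null `Γ` is nilpotent if the motive of `S` is finite-dimensional (Kimura). The statements here make no
such assumption.

The setting. `C` is the category of Chow motives over `ℂ` (degree-zero correspondences), `R` the singular cohomology
with coefficients extended to an algebraically closed field, `tp M n` the `n`-th tensor power, `bt` the dimension of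
the realisation. The theorem is proved for any object `M` which satisfies the sign conjecture (`CPlus`, trivial for
`t_2(S)`, whose realisation is even); so it holds also for `M = h(X)`, `X` with `C⁺`.

Proof. By duality `End(M ^ n) = Hom(1, U ^ n)` for the self-dual object `U = M ⊗ M^*`, and null endomorphisms
correspond to homologically trivial elements (`exists_equiv_hom`). These are a functor on `C`. (1) and (2) are the
law of `N64/AF` of the starting tree and the explicit gap (`h184/AJ`) for this functor and the powers of `U`; if the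
limit `N` is finite, then compositions of `N` numerically trivial morphisms act as zero on the functor. (3) is (2) for
`m = 1`. (4): if `dim End(M)` is finite, a polynomial in `y` is an idempotent `p ≠ 0`; its insertions into `i` of the `n`
factors of `U ^ n`, together with arbitrary cycles on the other factors, are independent (`many_dual`). For `n = 4 b ^ 6`
the sum exceeds `b ^ (2 n)` (`num_bound_one`).
-/

set_option autoImplicit false

open CategoryTheory MonoidalCategory Filter Topology
open Pool.Agent.Y112.SR Pool.Agent.Y112.KD Pool.Agent.N64.AF Pool.Agent.Run7.h848.XG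
open scoped ENNReal

namespace Pool.Agent.Results.MP_31564d_ag.NullCorrespondences

universe v u w

/-- Null endomorphisms of the powers of one object: law, gap, one inequality, nilpotence. -/
theorem result {C : Type u} [Category.{v} C] [Preadditive C] [MonoidalCategory C]
    [MonoidalPreadditive C] [SymmetricCategory C] [RightRigidCategory C]
    [Linear ℚ C] [MonoidalLinear ℚ C] [IsIdempotentComplete C]
    {K : Type w} [Field K] [IsAlgClosed K] [Algebra ℚ K] {R : SuperRealisation C K}
    (hR : IsReal ℚ R) {M : C} (hM : R.CPlus M) (hb : 0 < bt R M) :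
    (∃ N : ℕ∞, Tendsto (fun n => ((nullDim ℚ hR M n : ℕ∞) : ℝ≥0∞) /
        homRank ℚ (tp M n) (tp M n)) atTop (𝓝 (N : ℝ≥0∞)) ∧
      (N = 0 ↔ ∀ (n : ℕ) (y : tp M n ⟶ tp M n), R.H.map y = 0 → y = 0) ∧
      ∀ (n : ℕ) (l : List (End (tp M n))), (∀ y ∈ l, R.H.map (y : tp M n ⟶ tp M n) = 0) →
        (l.length : ℕ∞) = N + 1 → l.prod = 0) ∧
    (∀ m n : ℕ, (∃ y : tp M m ⟶ tp M m, R.H.map y = 0 ∧ y ≠ 0) →
      128 * (m + 1) ^ 2 * bt R M ^ (2 * (2 * m + 6)) ≤ 2 * n →
      (homRank ℚ (tp M (2 * n)) (tp M (2 * n)) : ℕ∞) ≤ 2 * nullDim ℚ hR M (2 * n) ∧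
      ((bt R M ^ (4 * n) : ℕ) : ℕ∞) ≤
        (2 * (n + 1) ^ (bt R M ^ 4) : ℕ) * nullDim ℚ hR M (2 * n)) ∧
    (∀ n : ℕ, 256 * bt R M ^ 16 ≤ n →
      2 * nullDim ℚ hR M (2 * n) < homRank ℚ (tp M (2 * n)) (tp M (2 * n)) →
      ∀ y : M ⟶ M, R.H.map y = 0 → y = 0) ∧
    ((∃ y : End M, R.H.map (y : M ⟶ M) = 0 ∧ ¬ IsNilpotent y) → ∀ n : ℕ,
      ((∑ i ∈ Finset.range (n + 1), n.choose i *
        homRank ℚ (tp M (n - i)) (tp M (n - i)) : ℕ) : ℕ∞) ≤ dimE ℚ (tp M n ⟶ tp M n)) ∧
    (∀ n : ℕ, (bt R M ^ 2 + 1) ^ n ≤ (n + 1) ^ (bt R M ^ 2) *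
      ∑ i ∈ Finset.range (n + 1), n.choose i * homRank ℚ (tp M (n - i)) (tp M (n - i))) ∧
    (dimE ℚ (tp M (4 * bt R M ^ 6) ⟶ tp M (4 * bt R M ^ 6)) ≤ (bt R M ^ (8 * bt R M ^ 6) : ℕ) →
      ∀ y : End M, R.H.map (y : M ⟶ M) = 0 → IsNilpotent y) :=
  ⟨(null_law hR hM hb).1, (null_law hR hM hb).2,
    fun _ hn h => null_one_inequality hR hM hb hn h,
    fun hy n => null_growth hR hM hb hy n, null_sum_ge hR hM,
    fun hd y hy => null_one_power hR hM hb hd y hy⟩

end Pool.Agent.Results.MP_31564d_ag.NullCorrespondences
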