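import Pool.Agent.Run7.h1.Corr.Smash

/-!
# MP_31564d_ag: Bloch's conjecture for one self-adjoint projector, modulo smash-nilpotent cycles

Let `X` be a smooth complex projective surface and let `Z` in `CH^2(X × X)_ℚ` be a self-adjoint projector
(`Z = Z^t`, `Z ∘ Z = Z`) with `[Z]^(2,0) = 0` which acts by zero on the odd cohomology. Examples: `q(X) = 0`, a
finite group `Γ` acts on `X` and `Z` in `ℚ[Γ]` is a self-adjoint idempotent which kills `H^(2,0)(X)`; such as
`Z = (1 - σ) / 2` for an involution `σ` which acts trivially on the holomorphic two-forms of `X`. By the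
Lefschetz theorem the image of `Z` on the cohomology is spanned by `b` algebraic classes, and we can choose
them in the image of `Z`: classes `a_i` in `CH(X)_ℚ` with `Z_* a_i = a_i` and with the invertible intersection
matrix `G`, `b` the trace of `Z`. Put

`t = Z - ∑ (G⁻¹)_(i, j) a_i × a_j`.

The question for `Γ = Z` is equivalent to `t = 0` (Bloch-Srinivas; not in the Lean text).

Theorem.

1. The following are equivalent: `t = 0`; `t` is smash-nilpotent; `Sym^N t = 0` for some `N`; `Sym^N t` is
   smash-nilpotent for some `N`.
2. If `t = 0`, then at most `b ^ n` of the products on `X ^ n` of classes `Z_(i, j)` and `a_i` (each factor of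
   `X ^ n` used once) are linearly independent.
3. If `t ≠ 0`, then
   * for all `n` at least `((b + 4) ^ n + (b - 4) ^ n) / (2 binomial(⌊n / 2⌋ + 15, 15))` of these products on
     `X ^ n` are linearly independent modulo smash-nilpotent cycles;
   * if a linear combination `∑_σ c_σ ∏_i t_(i, k + σ(i))` on `X ^ (2 k)` is smash-nilpotent, then `c` is a
     relation between the permutations of the factors of the `k`-th tensor power of the super vector
     space `ℚ^(2|2)`;
   * for all `m < 12` the `(m - 1)!!` products of the pull-backs of `t` to `X ^ m` for the partitions of the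
     factors into pairs are linearly independent modulo smash-nilpotent cycles.

Since cycles which are algebraically equivalent to zero are smash-nilpotent (Voevodsky, Voisin), one nontrivial
linear relation modulo algebraic equivalence between the 945 products on `X ^ 10` is sufficient for
`Z_* = 0` on the Albanese kernel.

Proof. The gap theorem of helper570 for self-adjoint projectors (`Pool.Agent.Run7.h570.GAP.Corr`) is applied
to the rings modulo smash-nilpotent classes, which have again the formal properties of the Chow rings of the
powers of `X` (`Pool.Agent.Run7.h570.GAP.Smash`). If `Sym^N t` is smash-nilpotent, then a larger symmetric power of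
`t` is zero, and then `t = 0`, as its trace is zero.
-/

set_option autoImplicit false

open Pool.Agent.Run7.h570.GAP

namespace Pool.Agent.Results.MP_31564d_ag.ProjectorGap

universe u

/-- Let `R` be a system `A(m)` of rings with the formal properties of the rational Chow rings of the powers of a
variety, `Z` a self-adjoint projector in `A(2)`, `a_i` classes in `A(1)` fixed by `Z` with the invertible
symmetric intersection matrix `G` of rank `b`, the trace of `Z`. Then for `t = Z - ∑ (G⁻¹)_(i, j) a_i × a_j` the
three statements above hold. -/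
theorem result {R : PowerRings.{u}} {b : ℕ} {Z : R.A 2} {a : Fin b → R.A 1}
    {G : Matrix (Fin b) (Fin b) ℚ} (h : Co.Cor R Z a G) :
    [Co.tz R Z a G = 0, SmashNil R (Co.tz R Z a G), ∃ N, sym (Co.tz R Z a G) N = 0,
      ∃ N, SmashNil R (sym (Co.tz R Z a G) N)].TFAE ∧
    (Co.tz R Z a G = 0 → ∀ (n N : ℕ) (v : Fin N → R.A n), (∀ j, Co.IsProduct R Z a n (v j)) →
      LinearIndependent ℚ v → N ≤ b ^ n) ∧
    (Co.tz R Z a G ≠ 0 →
      (∀ n : ℕ, ∃ (N : ℕ) (v : Fin N → R.A n), (∀ j, Co.IsProduct R Z a n (v j)) ∧
        (∀ c : Fin N → ℚ, SmashNil R (∑ j, c j • v j) → c = 0) ∧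
        ((b : ℤ) + 4) ^ n + ((b : ℤ) - 4) ^ n ≤ 2 * ((n / 2 + 15).choose 15 : ℕ) * N) ∧
      (∀ (k : ℕ) (c : Equiv.Perm (Fin k) → ℚ),
        SmashNil R (∑ σ, c σ • ∏ i, R.pull ![Fin.castAdd k i, Fin.natAdd k (σ i)]
          (Co.tz R Z a G)) → SuperRelation c) ∧
      (∀ m < 12, ∀ c : Matching m → ℚ,
        SmashNil R (∑ τ, c τ • mprod (Co.tz R Z a G) τ) → c = 0)) :=
  Pool.Agent.Run7.h1.Corr.smash_gap h

end Pool.Agent.Results.MP_31564d_ag.ProjectorGap
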